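import Pool.Agent.NH41.HF3

set_option autoImplicit false

/-!
Two independent self-avoiding walks on the honeycomb lattice: the lengths for which the probability
to meet only at the starting point is at most a negative power of the length have logarithmic
measure at least `1/2` in each window `[N, A N log N]`.
-/

namespace Pool.Agent.Results.MP_8c6f77_pr.HoneycombFrequent

open Filter Topology

/-- adjacency of the honeycomb lattice in brick-wall coordinates -/
def Adj (p q : ℤ × ℤ) : Prop :=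
  q - p = (1, 0) ∨ q - p = (-1, 0) ∨
  (q - p = (0, 1) ∧ Even (p.1 + p.2)) ∨
  (q - p = (0, -1) ∧ Even (q.1 + q.2))

/-- self-avoiding paths of length `n` started at the vertex `0` -/
def Om (n : ℕ) : Set (Fin (n + 1) → ℤ × ℤ) :=
  {w | w 0 = 0 ∧ Function.Injective w ∧ ∀ i : Fin n, Adj (w i.castSucc) (w i.succ)}

/-- `P_n[w{1,…,n} ∩ w'{0,…,n} = ∅]` for `w, w'` independent and uniform on `Om n` -/
noncomputable def Pn (n : ℕ) : ℝ :=
  (Set.ncard {p : (Fin (n + 1) → ℤ × ℤ) × (Fin (n + 1) → ℤ × ℤ) |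
    p.1 ∈ Om n ∧ p.2 ∈ Om n ∧ ∀ i j : Fin (n + 1), i ≠ 0 → p.1 i ≠ p.2 j} : ℝ) /
  (Set.ncard (Om n) : ℝ) ^ 2

open H978R2.Hex in
lemma Pn_eq (n : ℕ) : Pn n = Pool.Agent.R956.V1.P Pool.Agent.NH41.HF.rh n := by
  have h : Pn n = ((dpairs n).ncard : ℝ) / ((saws n).ncard : ℝ) ^ 2 := rfl
  rw [h, card_dpairs]
  unfold Pool.Agent.R956.V1.P Pool.Agent.NH41.HF.rh
  have h1 := saws_pos n
  have h2 := pow_pos mu0_pos n
  rw [show 2 * n = n + n by ring, pow_add]
  field_simp

/-- **Theorem.** On the honeycomb lattice: for every `δ < 1/75` there is `A` such that for all large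
`N` the sum of `1/m` over the lengths `m` with `N ≤ m ≤ A N log N` and `P_m ≤ m^(-δ)` is at least
`1/2`. -/
theorem result (δ : ℝ) (hδ : δ < 1 / 75) : ∃ A : ℝ, ∀ᶠ N : ℕ in atTop, (1 / 2 : ℝ) ≤
    ∑ m ∈ (Finset.Icc N ⌊A * N * Real.log N⌋₊).filter (fun m : ℕ => Pn m ≤ (m : ℝ) ^ (-δ)),
      1 / (m : ℝ) := by
  obtain ⟨K, β, K', c, C, H, -⟩ := Pool.Agent.NH41.HF.hex_facts
  simp only [Pn_eq]
  exact Pool.Agent.NH41.HF.frequent H hδ

end Pool.Agent.Results.MP_8c6f77_pr.HoneycombFrequent
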