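import Pool.Agent.NH41.HF3

set_option autoImplicit false

/-!
Two independent self-avoiding walks on the honeycomb lattice, with `n` and `m` steps: for every `m`
the probability to meet only at the starting point is at most a negative power of `m` when `n` is
much larger than `m²`, and for some `n` in every interval of length `A m log m`.
-/

namespace Pool.Agent.Results.MP_8c6f77_pr.HoneycombUnequal

open Filter Topology

/-- adjacency of the honeycomb lattice in brick-wall coordinates -/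
def Adj (p q : ℤ × ℤ) : Prop :=
  q - p = (1, 0) ∨ q - p = (-1, 0) ∨
  (q - p = (0, 1) ∧ Even (p.1 + p.2)) ∨
  (q - p = (0, -1) ∧ Even (q.1 + q.2))

/-- self-avoiding paths of length `n` started at the vertex `0` -/
def Om (n : ℕ) : Set (Fin (n + 1) → ℤ × ℤ) :=
  {w | w 0 = 0 ∧ Function.Injective w ∧ ∀ i : Fin n, Adj (w i.castSucc) (w i.succ)}

/-- the probability of `w{1,…,n} ∩ w'{0,…,m} = ∅` for independent `w`, uniform on `Om n`, and `w'`,
uniform on `Om m` -/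
noncomputable def P (n m : ℕ) : ℝ :=
  (Set.ncard {p : (Fin (n + 1) → ℤ × ℤ) × (Fin (m + 1) → ℤ × ℤ) |
    p.1 ∈ Om n ∧ p.2 ∈ Om m ∧ ∀ i j, i ≠ 0 → p.1 i ≠ p.2 j} : ℝ) /
  ((Set.ncard (Om n) : ℝ) * (Set.ncard (Om m) : ℝ))

open H978R2.Hex in
lemma P_eq (n m : ℕ) : P n m = Pool.Agent.NH41.HF.P2 Pool.Agent.NH41.HF.rh n m := by
  have h : P n m = ((Pool.Agent.NH41.HD.dpairs2 n m).ncard : ℝ) /
    (((saws n).ncard : ℝ) * ((saws m).ncard : ℝ)) := rfl
  rw [h, Pool.Agent.NH41.HD.card_dpairs2]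
  unfold Pool.Agent.NH41.HF.P2 Pool.Agent.NH41.HF.rh
  have h1 := saws_pos n
  have h2 := pow_pos mu0_pos n
  have h3 := saws_pos m
  have h4 := pow_pos mu0_pos m
  rw [pow_add]
  field_simp

/-- **Theorem.** On the honeycomb lattice:
(1) there is `B` with `P n m ≤ B m^(-1/75)` for all `n ≥ 2` and `m ≥ 1` with `m log n ≤ √n`;
(2) for every `δ < 1/75` there is `A` such that for all large `m` and all `n0 ≥ 1` there is
`j ≤ A log m` with `P (n0 + j m) m ≤ m^(-δ)`. -/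
theorem result :
    (∃ B : ℝ, 0 < B ∧ ∀ n m : ℕ, 2 ≤ n → 1 ≤ m → (m : ℝ) * Real.log n ≤ Real.sqrt n →
      P n m ≤ B * (m : ℝ) ^ (-(1 / 75) : ℝ)) ∧
    ∀ δ : ℝ, δ < 1 / 75 → ∃ A : ℝ, ∀ᶠ m : ℕ in atTop, ∀ n0 : ℕ, 1 ≤ n0 →
      ∃ j : ℕ, (j : ℝ) ≤ A * Real.log m ∧ P (n0 + j * m) m ≤ (m : ℝ) ^ (-δ) := by
  obtain ⟨K, β, K', c, C, H, h⟩ := Pool.Agent.NH41.HF.hex_facts
  simp only [P_eq]
  exact ⟨Pool.Agent.NH41.HF.much_longer H h, fun δ hδ => Pool.Agent.NH41.HF.unequal_all H h hδ⟩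

end Pool.Agent.Results.MP_8c6f77_pr.HoneycombUnequal
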